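import Pool.Agent.Helper46.TTT.Spec

/-!
Numerics for weak wins.
-/

set_option autoImplicit false

namespace Pool.Agent.Helper16.TTT.NUM

open Filter Topology Real

theorem lim (δ : ℝ) (h0 : 0 < δ) (h1 : δ < 1) :
    Tendsto (fun x : ℝ => (Real.log 2 / (2 * (1 - δ)) + Real.log x / x * (1 / (2 * (1 - δ)) + 1)) *
      (1 + 2 * x ^ (-δ)) + Real.log x / x * x⁻¹) atTop (𝓝 (Real.log 2 / (2 * (1 - δ)))) := by
  have hlog : Tendsto (fun x : ℝ => Real.log x / x) atTop (𝓝 0) :=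
    Real.isLittleO_log_id_atTop.tendsto_div_nhds_zero
  have hr : Tendsto (fun x : ℝ => x ^ (-δ)) atTop (𝓝 0) := tendsto_rpow_neg_atTop h0
  have hi : Tendsto (fun x : ℝ => x⁻¹) atTop (𝓝 0) := tendsto_inv_atTop_zero
  have h := (((hlog.mul_const (1 / (2 * (1 - δ)) + 1)).const_add
    (Real.log 2 / (2 * (1 - δ)))).mul ((hr.const_mul 2).const_add 1)).add (hlog.mul hi)
  convert h using 2
  ring

theorem main : Pool.Agent.Helper46.TTT.S_NUM := by
  intro ε hε
  -- choose `δ`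
  have hL : 0 < Real.log 2 := Real.log_pos (by norm_num)
  obtain ⟨δ, hδ0, hδ1, hδ⟩ : ∃ δ : ℝ, 0 < δ ∧ δ < 1 ∧
      Real.log 2 / (2 * (1 - δ)) < Real.log 2 / 2 + ε := by
    refine ⟨min (1 / 2) (ε / (Real.log 2 + 2 * ε)), lt_min (by norm_num) (by positivity),
      lt_of_le_of_lt (min_le_left _ _) (by norm_num), ?_⟩
    set δ := min (1 / 2 : ℝ) (ε / (Real.log 2 + 2 * ε)) with hδ
    have h1 : δ ≤ 1 / 2 := min_le_left _ _
    have h2 : δ ≤ ε / (Real.log 2 + 2 * ε) := min_le_right _ _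
    have h3 : δ * (Real.log 2 + 2 * ε) ≤ ε := by
      rw [le_div_iff₀ (by positivity)] at h2
      exact h2
    rw [div_lt_iff₀ (by linarith)]
    nlinarith
  have hev := (lim δ hδ0 hδ1).eventually (gt_mem_nhds hδ)
  obtain ⟨x0, hx0⟩ := Filter.eventually_atTop.1 hev
  refine ⟨max 3 (Nat.ceil x0), fun n hn => ?_⟩
  have hn3 : 3 ≤ n := le_trans (le_max_left _ _) hn
  have hnx : x0 ≤ n := le_trans (Nat.le_ceil x0) (by exact_mod_cast le_trans (le_max_right _ _) hn)
  have hb := hx0 n hnx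
  have hn3' : (3 : ℝ) ≤ n := by exact_mod_cast hn3
  have hnpos : (0 : ℝ) < n := by linarith
  have hlogn : 0 < Real.log n := Real.log_pos (by linarith)
  have hd4 : (1 : ℝ) - δ ≠ 0 := by linarith
  set cb : ℝ := (n * Real.log 2 + Real.log n) / (2 * (1 - δ) * Real.log n) with hcb
  have hden : 0 < 2 * (1 - δ) * Real.log n := mul_pos (by linarith) hlogn
  have hcbpos : 0 < cb := div_pos (by positivity) hden
  set rb : ℝ := (n : ℝ) ^ (1 - δ) with hrb
  have hrb1 : 1 < rb := Real.one_lt_rpow (by linarith) (by linarith)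
  refine ⟨Nat.ceil cb, Nat.ceil rb, Nat.one_le_iff_ne_zero.2 ?_, ?_, ?_, ?_⟩
  · exact (Nat.ceil_pos.2 hcbpos).ne'
  · have : (1 : ℕ) < Nat.ceil rb := Nat.lt_ceil.2 (by exact_mod_cast hrb1)
    omega
  · have h1 : (n : ℝ) * 2 ^ n ≤ (Nat.ceil rb : ℝ) ^ (2 * Nat.ceil cb) := by
      have h2 : (n : ℝ) * 2 ^ n = rb ^ (2 * cb) := by
        rw [hrb, ← Real.rpow_mul hnpos.le]
        have h3 : (1 - δ) * (2 * cb) = (n * Real.log 2 + Real.log n) / Real.log n := by
          rw [hcb]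
          field_simp
        rw [h3, Real.rpow_def_of_pos hnpos]
        rw [show Real.log n * ((n * Real.log 2 + Real.log n) / Real.log n) =
          n * Real.log 2 + Real.log n by field_simp]
        rw [Real.exp_add, Real.exp_log hnpos, mul_comm (n : ℝ) (Real.log 2), Real.exp_mul,
          Real.exp_log (by norm_num : (0 : ℝ) < 2), Real.rpow_natCast]
        ring
      rw [h2]
      calc rb ^ (2 * cb) ≤ rb ^ (2 * (Nat.ceil cb : ℝ)) :=
            Real.rpow_le_rpow_of_exponent_le hrb1.le (by linarith [Nat.le_ceil cb])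
        _ = rb ^ (2 * Nat.ceil cb) := by
            rw [← Real.rpow_natCast]
            push_cast
            rfl
        _ ≤ _ := pow_le_pow_left₀ (by linarith) (Nat.le_ceil rb) _
    have h4 : (0 : ℝ) < (Nat.ceil rb : ℝ) ^ (2 * Nat.ceil cb) :=
      pow_pos (by exact_mod_cast (Nat.ceil_pos.2 (by linarith))) _
    have h5 : (n : ℝ) * 2 ^ n < 8 * (Nat.ceil rb : ℝ) ^ (2 * Nat.ceil cb) := by linarith
    exact_mod_cast h5
  · have hc : (Nat.ceil cb : ℝ) ≤ cb + 1 := (Nat.ceil_lt_add_one hcbpos.le).le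
    have hr : (Nat.ceil rb : ℝ) - 1 ≤ rb := by linarith [Nat.ceil_lt_add_one (by linarith : 0 ≤ rb)]
    have hr1 : 1 ≤ Nat.ceil rb := Nat.ceil_pos.2 (by linarith)
    have h1 : ((n * Nat.ceil cb + 2 * ((Nat.ceil rb - 1) * Nat.ceil cb) + 1 : ℕ) : ℝ) ≤
        (cb + 1) * (n + 2 * rb) + 1 := by
      push_cast [Nat.cast_sub hr1]
      have hc0 : (0 : ℝ) ≤ Nat.ceil cb := Nat.cast_nonneg _
      have h2 : (n : ℝ) * Nat.ceil cb + 2 * (((Nat.ceil rb : ℝ) - 1) * Nat.ceil cb) ≤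
          Nat.ceil cb * (n + 2 * rb) := by nlinarith
      have h3 : (Nat.ceil cb : ℝ) * (n + 2 * rb) ≤ (cb + 1) * (n + 2 * rb) :=
        mul_le_mul_of_nonneg_right hc (by linarith)
      linarith
    refine h1.trans ?_
    rw [le_div_iff₀ hlogn]
    have h2 : ((cb + 1) * (n + 2 * rb) + 1) * Real.log n =
        ((Real.log 2 / (2 * (1 - δ)) + Real.log n / n * (1 / (2 * (1 - δ)) + 1)) *
      (1 + 2 * (n : ℝ) ^ (-δ)) + Real.log n / n * (n : ℝ)⁻¹) * (n : ℝ) ^ 2 := by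
      have h3 : rb = n * (n : ℝ) ^ (-δ) := by
        rw [hrb, show (1 - δ) = 1 + -δ by ring, Real.rpow_add hnpos, Real.rpow_one]
      rw [h3, hcb]
      generalize (n : ℝ) ^ (-δ) = y
      field_simp
      ring
    rw [h2]
    exact mul_le_mul_of_nonneg_right hb.le (by positivity)

end Pool.Agent.Helper16.TTT.NUM
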